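import Mathlib
import Pool.Agent.H46.ST.Defs
import Pool.Agent.H46.ST.Hur
import Pool.Agent.H46.ST.Neg

set_option autoImplicit false

namespace Pool.Agent.Results.MP_0d4624_gt.NotEquivalent

open H46.ST Cardinal

/-- If `𝔟 < 𝔤`, `𝔟 < 𝔲` and `2^ω ≤ 𝔟⁺`, then every `𝔟`-concentrated set is Hurewicz, but the
semifilter trichotomy fails. More precisely, `𝔟 < 𝔤` implies that every `𝔟`-concentrated set of
size at most `𝔟⁺` is Hurewicz, and `𝔟 < 𝔲` implies that the semifilter trichotomy fails. -/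
theorem result :
    (bNum < gNum → bNum < uNum → continuum.{0} ≤ Order.succ bNum →
      (∀ X : Set (ℕ → Bool), BConcentrated X → Hurewicz X) ∧ ¬ SemifilterTrichotomy) ∧
    (bNum < gNum → ∀ X : Set (ℕ → Bool), Cardinal.mk X ≤ Order.succ bNum →
      BConcentrated X → Hurewicz X) ∧
    (bNum < uNum → ¬ SemifilterTrichotomy) := by
  refine ⟨fun hbg hbu hc => ⟨fun X hX => ?_, not_trichotomy hbu⟩,
    fun hbg X hX hb => hurewicz_of_card hbg X hX hb, not_trichotomy⟩
  refine hurewicz_of_card hbg X ?_ hX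
  refine (Cardinal.mk_set_le X).trans (le_trans (le_of_eq ?_) hc)
  simp

end Pool.Agent.Results.MP_0d4624_gt.NotEquivalent
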